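import Pool.Agent.H3.SF.Tg2
import Pool.Agent.H60.SM.HOM

/-!
# Row HFA of srf_modules: factors of homogeneous elements are homogeneous up to constants
-/

set_option autoImplicit false

namespace Pool.Agent.H64.SRF

open MvPolynomial SC Pool.Agent.H27.LV
open Pool.Agent.H84.SM (dp cr dt)
open Pool.Agent.H92.SF Pool.Agent.H3.SF

section Der

variable {k F σ : Type} [Field k] [Field F] [Algebra k F] (E : Derivation k F F) (v : σ → ℕ)

/-- the twisted derivation of the polynomial ring: `E` on the coefficients, `v` on the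
variables -/
noncomputable def dv (f : MvPolynomial σ F) : MvPolynomial σ F :=
  ∑ d ∈ f.support, monomial d (E (coeff d f) + ((Finsupp.weight v d : ℕ) : F) * coeff d f)

theorem coeff_dv (f : MvPolynomial σ F) (e : σ →₀ ℕ) :
    coeff e (dv E v f) = E (coeff e f) + ((Finsupp.weight v e : ℕ) : F) * coeff e f := by
  classical
  unfold dv
  rw [coeff_sum]
  simp only [coeff_monomial]
  rw [Finset.sum_ite_eq']
  split_ifs with h
  · rfl
  · rw [notMem_support_iff.1 h]
    simp

theorem dv_add (f g : MvPolynomial σ F) : dv E v (f + g) = dv E v f + dv E v g := by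
  ext e
  rw [coeff_add, coeff_dv, coeff_dv, coeff_dv, coeff_add, map_add]
  ring

theorem dv_mul (f g : MvPolynomial σ F) :
    dv E v (f * g) = f • dv E v g + g • dv E v f := by
  classical
  ext e
  rw [smul_eq_mul, smul_eq_mul, mul_comm g, coeff_add, coeff_dv, coeff_mul, coeff_mul, coeff_mul,
    map_sum, Finset.mul_sum, ← Finset.sum_add_distrib, ← Finset.sum_add_distrib]
  refine Finset.sum_congr rfl fun x hx => ?_
  rw [coeff_dv, coeff_dv, Derivation.leibniz, ← Finset.HasAntidiagonal.mem_antidiagonal.1 hx, map_add]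
  simp only [smul_eq_mul]
  push_cast
  ring

/-- the same as a derivation -/
noncomputable def dvD : Derivation ℤ (MvPolynomial σ F) (MvPolynomial σ F) :=
  Derivation.mk' (AddMonoidHom.toIntLinearMap
    { toFun := dv E v
      map_zero' := by
        ext e
        rw [coeff_dv, coeff_zero]
        simp
      map_add' := dv_add E v }) (dv_mul E v)

theorem dvD_apply (f : MvPolynomial σ F) : dvD E v f = dv E v f := rfl

theorem dvd_dv_irr [CharZero F] {T Q : MvPolynomial σ F} (hT : T ≠ 0) {t : MvPolynomial σ F}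
    (h : dvD E v T = t * T) (hQ : Irreducible Q) (hQT : Q ∣ T) : Q ∣ dvD E v Q := by
  obtain ⟨f, R, hR, hf⟩ := WfDvdMonoid.max_power_factor hT hQ
  have hQp : Prime Q := hQ.prime
  rcases f with _ | f
  · rw [pow_zero, one_mul] at hf
    rw [hf] at hQT
    exact absurd hQT hR
  rw [hf, Derivation.leibniz, Derivation.leibniz_pow] at h
  simp only [smul_eq_mul, nsmul_eq_mul, Nat.add_sub_cancel] at h
  have h1 : Q ^ f * (((f + 1 : ℕ) : MvPolynomial σ F) * R * dvD E v Q) =
      Q ^ f * (Q * (t * R - dvD E v R)) := by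
    linear_combination h
  have h2 := mul_left_cancel₀ (pow_ne_zero f hQ.ne_zero) h1
  have h3 : Q ∣ ((f + 1 : ℕ) : MvPolynomial σ F) * R * dvD E v Q := ⟨_, h2⟩
  rcases hQp.dvd_or_dvd h3 with h4 | h4
  · rcases hQp.dvd_or_dvd h4 with h5 | h5
    · exfalso
      have h6 : IsUnit (((f + 1 : ℕ) : MvPolynomial σ F)) := by
        have h7 : (((f + 1 : ℕ) : MvPolynomial σ F)) = C ((f + 1 : ℕ) : F) := by
          rw [map_natCast]
        rw [h7]
        exact (isUnit_iff_ne_zero.2 (Nat.cast_ne_zero.2 (Nat.succ_ne_zero f))).map C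
      exact hQ.not_isUnit (isUnit_of_dvd_unit h5 h6)
    · exact absurd h5 hR
  · exact h4

theorem dvd_dv [CharZero F] {T : MvPolynomial σ F} (hT : T ≠ 0) {t : MvPolynomial σ F}
    (h : dvD E v T = t * T) (P : MvPolynomial σ F) : P ∣ T → P ∣ dvD E v P := by
  refine WfDvdMonoid.induction_on_irreducible P ?_ ?_ ?_
  · intro _
    simp
  · intro u hu _
    exact hu.dvd
  · intro a i ha hi ih hd
    have h1 := dvd_dv_irr E v hT h hi ((dvd_mul_right i a).trans hd)
    have h2 := ih ((dvd_mul_left a i).trans hd)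
    rw [Derivation.leibniz]
    simp only [smul_eq_mul]
    exact dvd_add (mul_dvd_mul_left i h2) (by rw [mul_comm i a]; exact mul_dvd_mul_left a h1)

theorem wh_dv {w : σ → ℕ} {P : MvPolynomial σ F} {n : ℕ} (h : IsWeightedHomogeneous w P n) :
    IsWeightedHomogeneous w (dvD E v P) n := by
  intro d hd
  refine h ?_
  intro h0
  apply hd
  rw [dvD_apply, coeff_dv, h0]
  simp

theorem wh_C_mul {w : σ → ℕ} {P : MvPolynomial σ F} {n : ℕ} (c : F)
    (h : IsWeightedHomogeneous w P n) : IsWeightedHomogeneous w (C c * P) n := by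
  intro d hd
  refine h ?_
  intro h0
  apply hd
  rw [coeff_C_mul, h0, mul_zero]

theorem main [CharZero F] {w : σ → ℕ} (hw : ∀ i, w i ≠ 0) {P N : MvPolynomial σ F}
    (hne : P * N ≠ 0) {n : ℕ} (hwh : IsWeightedHomogeneous w (P * N) n) {τ : ℤ}
    (hτ : dvD E v (P * N) = C (τ : F) * (P * N)) :
    ∃ (c : F) (n1 n2 : ℕ) (τ1 τ2 : ℤ), c ≠ 0 ∧ n1 + n2 = n ∧ τ1 + τ2 = τ ∧
      IsWeightedHomogeneous w (C c * P) n1 ∧ dvD E v (C c * P) = C (τ1 : F) * (C c * P) ∧
      IsWeightedHomogeneous w (C c⁻¹ * N) n2 ∧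
      dvD E v (C c⁻¹ * N) = C (τ2 : F) * (C c⁻¹ * N) := by
  classical
  have hP : P ≠ 0 := left_ne_zero_of_mul hne
  have hN : N ≠ 0 := right_ne_zero_of_mul hne
  obtain ⟨n1, n2, hn, h1, h2⟩ := Pool.Agent.H60.SM.wh_of_mul w hne hwh
  obtain ⟨A, hA⟩ := dvd_dv E v hne hτ P (dvd_mul_right P N)
  have hAc : ∃ a : F, A = C a := by
    by_cases hA0 : A = 0
    · exact ⟨0, by rw [hA0, map_zero]⟩
    have h3 := wh_dv E v h1
    rw [hA] at h3
    obtain ⟨m1, m2, hm, h4, h5⟩ := Pool.Agent.H60.SM.wh_of_mul w (mul_ne_zero hP hA0) h3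
    have h6 : m1 = n1 := h4.inj_right hP h1
    have h7 : m2 = 0 := by omega
    subst h7
    refine ⟨coeff 0 A, ?_⟩
    ext d
    rw [coeff_C]
    split_ifs with hd
    · rw [hd]
    · by_contra h8
      have h9 := h5 h8
      apply hd
      symm
      ext i
      rw [Finsupp.weight_apply, Finsupp.sum, Finset.sum_eq_zero_iff] at h9
      by_contra h10
      have h11 := h9 i (Finsupp.mem_support_iff.2 h10)
      rw [smul_eq_mul, mul_eq_zero] at h11
      rcases h11 with h11 | h11
      · exact h10 h11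
      · exact hw i h11
  obtain ⟨a, rfl⟩ := hAc
  obtain ⟨d, hd⟩ := ne_zero_iff.1 hP
  set c : F := (coeff d P)⁻¹ with hc
  have hc0 : c ≠ 0 := inv_ne_zero hd
  have hDC : ∀ x : F, dvD E v (C x) = C (E x) := by
    intro x
    ext e
    rw [dvD_apply, coeff_dv, coeff_C, coeff_C]
    split_ifs with he
    · rw [← he]
      simp
    · simp
  have h3 : dvD E v (C c * P) = C (E c / c + a) * (C c * P) := by
    rw [Derivation.leibniz, hDC, hA]
    simp only [smul_eq_mul]
    have h4 : C (E c / c + a) * (C c * P) = C ((E c / c + a) * c) * P := by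
      rw [map_mul]
      ring
    rw [h4, add_mul, div_mul_cancel₀ _ hc0, map_add, map_mul]
    ring
  have h4 : E c / c + a = ((Finsupp.weight v d : ℕ) : F) := by
    have h5 := congrArg (coeff d) h3
    have h6 : coeff d (C c * P) = 1 := by rw [coeff_C_mul, hc, inv_mul_cancel₀ hd]
    rw [dvD_apply, coeff_dv, coeff_C_mul (d) (E c / c + a), h6] at h5
    simp only [mul_one, Derivation.map_one_eq_zero, zero_add] at h5
    exact h5.symm
  rw [h4] at h3
  have hPN : (C c * P) * (C c⁻¹ * N) = P * N := by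
    have : (C c * P) * (C c⁻¹ * N) = C (c * c⁻¹) * (P * N) := by
      rw [map_mul]
      ring
    rw [this, mul_inv_cancel₀ hc0, map_one, one_mul]
  refine ⟨c, n1, n2, (Finsupp.weight v d : ℕ), τ - (Finsupp.weight v d : ℕ), hc0, hn, by ring,
    wh_C_mul c h1, ?_, wh_C_mul _ h2, ?_⟩
  · rw [h3]
    push_cast
    rfl
  · rw [← hPN, Derivation.leibniz, h3] at hτ
    simp only [smul_eq_mul] at hτ
    have hne2 : C c * P ≠ 0 := mul_ne_zero (by rw [Ne, C_eq_zero]; exact hc0) hP
    refine mul_left_cancel₀ hne2 ?_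
    push_cast
    rw [map_sub]
    linear_combination hτ

end Der

section Tr

variable {k F : Type} [Field k] [Field F] [Algebra k F]

/-- the weights of the variables -/
def wt : Option (Fin 2) → ℕ := fun o => o.elim 3 (1 : Fin 2 → ℕ)

/-- the twists of the variables -/
def wv : Option (Fin 2) → ℕ := fun o => o.elim 3 (fun _ => 2)

theorem weight_opt2 (w : Fin 2 → ℕ) (c : ℕ) (m : Option (Fin 2) →₀ ℕ) :
    Finsupp.weight (fun o : Option (Fin 2) => o.elim c w) m =
      m none * c + Finsupp.weight w m.some := by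
  rw [Finsupp.weight_apply, Finsupp.weight_apply, Finsupp.sum_option_index_smul]
  simp

theorem wh_iff (n : ℕ) (P : MvPolynomial (Option (Fin 2)) F) :
    WH n (optionEquivLeft F (Fin 2) P) ↔ IsWeightedHomogeneous wt P n := by
  constructor
  · intro h m hm
    rw [← optionEquivLeft_coeff_some_coeff_none] at hm
    obtain ⟨h1, h2⟩ := h (m none)
    rcases le_or_gt (3 * m none) n with h3 | h3
    · have h4 := (h1 h3) hm
      unfold wt
      rw [weight_opt2, h4]
      omega
    · rw [h2 h3, coeff_zero] at hm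
      exact absurd rfl hm
  · intro hx j
    have h1 : ∀ m : Fin 2 →₀ ℕ,
        coeff m ((optionEquivLeft F (Fin 2) P).coeff j) ≠ 0 →
        j * 3 + Finsupp.weight (1 : Fin 2 → ℕ) m = n := by
      intro m hm
      have h2 := optionEquivLeft_coeff_some_coeff_none F (Fin 2) (m.optionElim j) P
      rw [Finsupp.some_optionElim, Finsupp.optionElim_apply_none] at h2
      rw [h2] at hm
      have h3 := hx hm
      unfold wt at h3
      rw [weight_opt2, Finsupp.some_optionElim, Finsupp.optionElim_apply_none] at h3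
      exact h3
    refine ⟨fun _ => fun m hm => ?_, fun hj => ?_⟩
    · have := h1 m hm
      omega
    · by_contra hne
      obtain ⟨m, hm⟩ := ne_zero_iff.1 hne
      have := h1 m hm
      omega

theorem weight_two (m : Fin 2 →₀ ℕ) :
    Finsupp.weight (fun _ : Fin 2 => 2) m = 2 * Finsupp.weight (1 : Fin 2 → ℕ) m := by
  rw [Finsupp.weight_apply, Finsupp.weight_apply, Finsupp.sum, Finsupp.sum, Finset.mul_sum]
  refine Finset.sum_congr rfl fun i _ => ?_
  simp
  ring

theorem tw_iff (u : Fin 3 → F) (dd : Fin 3 → Derivation k F F) (n : ℕ) (τ : ℤ)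
    (P : MvPolynomial (Option (Fin 2)) F) :
    Tw u dd n τ (optionEquivLeft F (Fin 2) P) ↔
      IsWeightedHomogeneous wt P n ∧ dvD (eu u dd) wv P = C (τ : F) * P := by
  unfold Tw
  rw [wh_iff]
  refine and_congr_right fun hP => ?_
  have key : ∀ m : Option (Fin 2) →₀ ℕ, coeff m P ≠ 0 →
      ((Finsupp.weight wv m : ℕ) : ℤ) = 2 * n - 3 * (m none : ℕ) := by
    intro m hm
    have h3 := hP hm
    unfold wt at h3
    unfold wv
    rw [weight_opt2] at h3 ⊢
    rw [weight_two]
    push_cast
    omega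
  constructor
  · intro h
    ext m
    rw [dvD_apply, coeff_dv, coeff_C_mul]
    by_cases hm : coeff m P = 0
    · rw [hm]
      simp
    have h1 := h (m none) m.some
    rw [optionEquivLeft_coeff_some_coeff_none] at h1
    unfold Hm at h1
    rw [h1]
    have h2 := congrArg (Int.cast : ℤ → F) (key m hm)
    push_cast at h2 ⊢
    rw [h2]
    ring
  · intro h j a
    have h2 := optionEquivLeft_coeff_some_coeff_none F (Fin 2) (a.optionElim j) P
    rw [Finsupp.some_optionElim, Finsupp.optionElim_apply_none] at h2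
    rw [h2]
    have h3 := congrArg (coeff (a.optionElim j)) h
    rw [dvD_apply, coeff_dv, coeff_C_mul] at h3
    unfold Hm
    by_cases hm : coeff (a.optionElim j) P = 0
    · rw [hm]
      simp
    have h4 := congrArg (Int.cast : ℤ → F) (key _ hm)
    rw [Finsupp.optionElim_apply_none] at h4
    push_cast at h4 ⊢
    rw [h4] at h3
    linear_combination h3

theorem opt_cq (c : F) (P : MvPolynomial (Option (Fin 2)) F) :
    optionEquivLeft F (Fin 2) (C c * P) = cq c * optionEquivLeft F (Fin 2) P := by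
  rw [map_mul, optionEquivLeft_C]
  rfl

end Tr

theorem pf_HFA (hSF1 : T_SF1) : T_HFA := by
  have _ := hSF1
  intro k F _ _ _ _ _ u dd δ j0 c0 J hS n τ P N hne hT
  have : CharZero F := charZero_of_injective_algebraMap (algebraMap k F).injective
  set φ := optionEquivLeft F (Fin 2)
  obtain ⟨P, rfl⟩ := φ.surjective P
  obtain ⟨N, rfl⟩ := φ.surjective N
  rw [← map_mul] at hT hne
  have hPN : P * N ≠ 0 := by
    intro h0
    rw [h0, map_zero] at hne
    exact hne rfl
  obtain ⟨h1, h2⟩ := (tw_iff u dd n τ (P * N)).1 hT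
  obtain ⟨c, n1, n2, τ1, τ2, hc, hn, hτ, h3, h4, h5, h6⟩ := main (eu u dd) wv
    (w := wt) (by
      intro o
      rcases o with _ | i
      · simp [wt]
      · simp [wt]) hPN h1 h2
  refine ⟨c, n1, n2, τ1, τ2, hc, hn, hτ, ?_, ?_⟩
  · rw [← opt_cq]
    exact (tw_iff u dd n1 τ1 _).2 ⟨h3, h4⟩
  · rw [← opt_cq]
    exact (tw_iff u dd n2 τ2 _).2 ⟨h5, h6⟩

end Pool.Agent.H64.SRF
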